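import Pool.Agent.Helper41.LD.Defs

/-!
# Project LD3, block TT: two lemmas for the count of the bad exponents

The Diophantine property in logarithmic form, and the comparison of the heights of two multiplicatively dependent
rational numbers.
-/

set_option autoImplicit false

namespace Pool.Agent.Helper94.LD3

open Pool.Agent.Helper41.LD (Dioph)

/-- DL: the Diophantine property for the logarithm -/
theorem dioph_log {s : ℝ} {κ : ℕ} (hs : 1 < s) (hκ : 1 ≤ κ) (h : Dioph s κ) : ∃ C : ℝ, 0 < C ∧ ∀ n A B : ℕ, 1 ≤ n → 1 ≤ A →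
    1 ≤ B → Real.exp (-(C * ((n : ℝ) + Real.log A + Real.log B) ^ κ)) ≤ |(n : ℝ) * Real.log s - (Real.log A - Real.log B)| := by
  obtain ⟨C, hC, hd⟩ := h
  refine ⟨C + 2, by linarith, fun n A B hn hA hB => ?_⟩
  have hn1 : (1 : ℝ) ≤ n := by exact_mod_cast hn
  have hA1 : (1 : ℝ) ≤ A := by exact_mod_cast hA
  have hB1 : (1 : ℝ) ≤ B := by exact_mod_cast hB
  have hlA : 0 ≤ Real.log A := Real.log_nonneg hA1
  have hlB : 0 ≤ Real.log B := Real.log_nonneg hB1
  have hs0 : 0 < s := by linarith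
  set z := (n : ℝ) * Real.log s - (Real.log A - Real.log B) with hz
  set L := (n : ℝ) + Real.log A + Real.log B with hL
  have hL1 : 1 ≤ L := by rw [hL]; linarith
  have hLκ : L ≤ L ^ κ := by
    calc L = L ^ 1 := (pow_one L).symm
      _ ≤ L ^ κ := pow_le_pow_right₀ hL1 hκ
  have hLκ0 : 0 ≤ L ^ κ := by positivity
  rcases le_or_gt |z| 1 with h1 | h1
  · have he : (B : ℝ) * s ^ n - A = A * (Real.exp z - 1) := by
      have h2 : Real.exp z = s ^ n / (A / B) := by
        rw [hz, Real.exp_sub, Real.exp_sub, Real.exp_log (by linarith), Real.exp_log (by linarith), Real.exp_nat_mul,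
          Real.exp_log hs0]
      rw [h2]
      field_simp
    have h3 := hd n B hn hB A
    have h4 := Real.abs_exp_sub_one_le h1
    have h5 : |(B : ℝ) * s ^ n - ((A : ℤ) : ℝ)| ≤ A * (2 * |z|) := by
      push_cast
      rw [he, abs_mul, abs_of_pos (by linarith : (0 : ℝ) < A)]
      exact mul_le_mul_of_nonneg_left h4 (by linarith)
    have h6 : Real.exp (-(C * ((n : ℝ) + Real.log B) ^ κ)) ≤ 2 * A * |z| := by linarith
    have h7 : Real.exp (-(C * ((n : ℝ) + Real.log B) ^ κ)) / (2 * A) ≤ |z| := by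
      rw [div_le_iff₀ (by positivity)]
      linarith
    refine le_trans ?_ h7
    have h8 : Real.exp (-(C * ((n : ℝ) + Real.log B) ^ κ)) / (2 * A) =
        Real.exp (-(C * ((n : ℝ) + Real.log B) ^ κ) - (Real.log 2 + Real.log A)) := by
      rw [Real.exp_sub, Real.exp_add, Real.exp_log (by norm_num), Real.exp_log (by linarith)]
    rw [h8]
    apply Real.exp_le_exp.2
    have h9 : ((n : ℝ) + Real.log B) ^ κ ≤ L ^ κ := by
      apply pow_le_pow_left₀ (by linarith)
      rw [hL]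
      linarith
    have h10 := mul_le_mul_of_nonneg_left h9 hC.le
    have h11 : Real.log 2 ≤ 1 := by linarith [Real.log_two_lt_d9]
    have h12 : Real.log 2 + Real.log A ≤ 2 * L ^ κ := by
      have : Real.log A ≤ L := by rw [hL]; linarith
      linarith
    nlinarith
  · refine le_trans ?_ h1.le
    rw [Real.exp_le_one_iff]
    have : 0 ≤ (C + 2) * L ^ κ := by positivity
    linarith

/-- HT: the heights of two dependent rational numbers -/
theorem height {A B A₂ B₂ M D d : ℕ} (hA : 1 ≤ A) (hB : 1 ≤ B) (hne : A ≠ B) (hA₂ : 1 ≤ A₂) (hB₂ : 1 ≤ B₂) (h1 : A₂ ≤ M)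
    (h2 : B₂ ≤ M) (h : A ^ D * B₂ ^ d = B ^ D * A₂ ^ d) : 2 ^ D ≤ M ^ d := by
  obtain ⟨g, a, b, hg, hco, ha, hb⟩ : ∃ g a b : ℕ, 0 < g ∧ Nat.Coprime a b ∧ A = a * g ∧ B = b * g := by
    have hg : 0 < Nat.gcd A B := Nat.gcd_pos_of_pos_left _ (by omega)
    obtain ⟨a, b, hco, ha, hb⟩ := Nat.exists_coprime A B
    exact ⟨Nat.gcd A B, a, b, hg, hco, ha, hb⟩
  have ha1 : 1 ≤ a := by
    rcases Nat.eq_zero_or_pos a with h0 | h0
    · subst h0
      omega
    · exact h0
  have hb1 : 1 ≤ b := by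
    rcases Nat.eq_zero_or_pos b with h0 | h0
    · subst h0
      omega
    · exact h0
  have hab : a ≠ b := by
    rintro rfl
    exact hne (ha.trans hb.symm)
  have hgD : 0 < g ^ D := Nat.pow_pos hg
  have h3 : a ^ D * B₂ ^ d = b ^ D * A₂ ^ d := by
    have h4 : g ^ D * (a ^ D * B₂ ^ d) = g ^ D * (b ^ D * A₂ ^ d) := by
      have h5 : g ^ D * (a ^ D * B₂ ^ d) = (a * g) ^ D * B₂ ^ d := by rw [mul_pow]; ring
      have h6 : g ^ D * (b ^ D * A₂ ^ d) = (b * g) ^ D * A₂ ^ d := by rw [mul_pow]; ring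
      rw [h5, h6, ← ha, ← hb, h]
    exact Nat.eq_of_mul_eq_mul_left hgD h4
  have hco' : Nat.Coprime (a ^ D) (b ^ D) := Nat.Coprime.pow D D hco
  have ha2 : a ^ D ∣ A₂ ^ d := by
    have : a ^ D ∣ b ^ D * A₂ ^ d := ⟨B₂ ^ d, h3.symm⟩
    exact hco'.dvd_of_dvd_mul_left this
  have hb2 : b ^ D ∣ B₂ ^ d := by
    have : b ^ D ∣ a ^ D * B₂ ^ d := ⟨A₂ ^ d, h3⟩
    exact hco'.symm.dvd_of_dvd_mul_left this
  have ha3 : a ^ D ≤ M ^ d := (Nat.le_of_dvd (Nat.pow_pos (by omega)) ha2).trans (Nat.pow_le_pow_left h1 d)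
  have hb3 : b ^ D ≤ M ^ d := (Nat.le_of_dvd (Nat.pow_pos (by omega)) hb2).trans (Nat.pow_le_pow_left h2 d)
  rcases Nat.lt_or_ge a 2 with h4 | h4
  · exact (Nat.pow_le_pow_left (show 2 ≤ b by omega) D).trans hb3
  · exact (Nat.pow_le_pow_left h4 D).trans ha3

end Pool.Agent.Helper94.LD3
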