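import Mathlib

/-!
# Project LD3, block TT: small lemmas

Sets of integers with gaps, distinct positive integers have distinct logarithms, and an irrational ratio.
-/

set_option autoImplicit false

namespace Pool.Agent.Helper94.LD3

/-- SEP: the size of a set of integers of an interval with gaps at least `g` -/
theorem sep_card {B : Finset ℕ} {g lo hi : ℕ} (hg : 1 ≤ g) (hB : ∀ u ∈ B, lo ≤ u ∧ u ≤ hi)
    (h : ∀ u ∈ B, ∀ v ∈ B, u < v → g ≤ v - u) : B.card ≤ (hi - lo) / g + 1 := by
  have h1 : B.card ≤ (Finset.range ((hi - lo) / g + 1)).card := by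
    refine Finset.card_le_card_of_injOn (fun u => (u - lo) / g) (fun u hu => ?_) ?_
    · have h2 := hB u hu
      rw [Finset.coe_range, Set.mem_Iio]
      have h3 : (u - lo) / g ≤ (hi - lo) / g := Nat.div_le_div_right (by omega)
      show (u - lo) / g < _
      omega
    · have key : ∀ u ∈ B, ∀ v ∈ B, u < v → (u - lo) / g ≠ (v - lo) / g := by
        intro u hu v hv huv
        have h2 := h u hu v hv huv
        have h3 := hB u hu
        have h4 := hB v hv
        have h5 : (u - lo) / g + 1 ≤ (v - lo) / g := by
          have h6 : u - lo + g ≤ v - lo := by omega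
          have h7 := Nat.div_le_div_right (c := g) h6
          rwa [Nat.add_div_right _ (by omega)] at h7
        omega
      intro u hu v hv huv
      rcases lt_trichotomy u v with h2 | h2 | h2
      · exact absurd huv (key u hu v hv h2)
      · exact h2
      · exact absurd huv.symm (key v hv u hu h2)
  rwa [Finset.card_range] at h1

/-- GAP: the logarithms of two distinct positive integers -/
theorem log_gap {A B M : ℕ} (hA : 1 ≤ A) (hB : 1 ≤ B) (hne : A ≠ B) (h1 : A ≤ M) (h2 : B ≤ M) :
    1 / (M : ℝ) ≤ |Real.log A - Real.log B| := by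
  have key : ∀ a b : ℕ, 1 ≤ a → a < b → b ≤ M → 1 / (M : ℝ) ≤ Real.log b - Real.log a := by
    intro a b ha hab hb
    have ha0 : (0 : ℝ) < a := by exact_mod_cast ha
    have hab' : (a : ℝ) + 1 ≤ b := by exact_mod_cast hab
    have hb0 : (0 : ℝ) < b := by linarith
    have hbM : (b : ℝ) ≤ M := by exact_mod_cast hb
    have h3 := Real.log_le_sub_one_of_pos (show (0 : ℝ) < a / b by positivity)
    rw [Real.log_div ha0.ne' hb0.ne'] at h3
    have h4 : 1 / (M : ℝ) ≤ 1 / b := one_div_le_one_div_of_le hb0 hbM
    have h5 : 1 / (b : ℝ) ≤ 1 - a / b := by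
      have : (1 : ℝ) - a / b = (b - a) / b := by field_simp
      rw [this]
      exact div_le_div_of_nonneg_right (by linarith) hb0.le
    linarith
  rcases lt_or_gt_of_ne hne with h | h
  · have := key A B hA h h2
    rw [abs_sub_comm]
    exact this.trans (le_abs_self _)
  · have := key B A hB h h1
    exact this.trans (le_abs_self _)

/-- IRR: small multiples of an irrational number are not close to integers -/
theorem irr_gap {T S : ℝ} (hS : 0 < S) (hirr : Irrational (T / S)) (V : ℕ) :
    ∃ δ : ℝ, 0 < δ ∧ ∀ d : ℕ, 1 ≤ d → d < V → ∀ a : ℤ, δ ≤ |(d : ℝ) * T - a * S| := by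
  induction V with
  | zero => exact ⟨1, one_pos, fun d _ hd => absurd hd (Nat.not_lt_zero _)⟩
  | succ V ih =>
    obtain ⟨δ, hδ, h⟩ := ih
    rcases Nat.eq_zero_or_pos V with hV | hV
    · exact ⟨δ, hδ, fun d h1 h2 => by omega⟩
    · set x := (V : ℝ) * (T / S) with hx
      have hxi : Irrational x := by
        rw [hx]
        exact hirr.natCast_mul (by omega)
      have hf0 : 0 < Int.fract x := by
        rcases (Int.fract_nonneg x).lt_or_eq with h1 | h1
        · exact h1
        · exfalso
          apply hxi
          refine ⟨(⌊x⌋ : ℚ), ?_⟩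
          have : x - ⌊x⌋ = 0 := h1.symm
          push_cast
          linarith
      have hf1 : Int.fract x < 1 := Int.fract_lt_one x
      set ρ := min (Int.fract x) (1 - Int.fract x) with hρ
      have hρ0 : 0 < ρ := lt_min hf0 (by linarith)
      have hdist : ∀ a : ℤ, ρ ≤ |x - a| := by
        intro a
        rcases le_or_gt a ⌊x⌋ with h1 | h1
        · have h2 : (a : ℝ) ≤ ⌊x⌋ := by exact_mod_cast h1
          have h3 : Int.fract x ≤ x - a := by
            unfold Int.fract
            linarith
          exact (min_le_left _ _).trans (h3.trans (le_abs_self _))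
        · have h2 : (⌊x⌋ : ℝ) + 1 ≤ a := by exact_mod_cast h1
          have h3 : 1 - Int.fract x ≤ -(x - a) := by
            unfold Int.fract
            linarith
          exact (min_le_right _ _).trans (h3.trans (neg_le_abs _))
      refine ⟨min δ (ρ * S), lt_min hδ (by positivity), fun d h1 h2 a => ?_⟩
      rcases Nat.lt_or_ge d V with h3 | h3
      · exact (min_le_left _ _).trans (h d h1 h3 a)
      · have hd : d = V := by omega
        subst hd
        refine (min_le_right _ _).trans ?_
        have h4 : (d : ℝ) * T - a * S = (x - a) * S := by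
          rw [hx]
          field_simp
        rw [h4, abs_mul, abs_of_pos hS]
        exact mul_le_mul_of_nonneg_right (hdist a) hS.le

end Pool.Agent.Helper94.LD3
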